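import Pool.Agent.MP_51358b_an.Mg.Conj

namespace Pool.Agent.Results.MP_51358b_an.Bistable

open Set Filter Topology Pool.Agent.MP_51358b_an

theorem result : ∃ (p : ℝ) (r b c : Fin 3 → ℝ) (M : Matrix (Fin 3) (Fin 3) ℝ),
    Admissible p r b c M ∧ M.IsSymm ∧
    (∀ u₀ : Fin 3 → ℝ, (∀ i, 0 ≤ u₀ i) → ∃ u, IsSol (field p r b c M) u ∧ u 0 = u₀) ∧
    ∃ e : Fin 3 → ℝ, (∀ i, 0 < e i) ∧ field p r b c M e = 0 ∧
      (∀ v : Fin 3 → ℝ, (∀ i, 0 < v i) → field p r b c M v = 0 → v = e) ∧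
      LAS (field p r b c M) {e} ∧ ¬ GAS (field p r b c M) e ∧
      ∃ (γ : ℝ → Fin 3 → ℝ) (T : ℝ), IsSol (field p r b c M) γ ∧ 0 < T ∧
        (∀ t, 0 ≤ t → γ (t + T) = γ t) ∧ (∃ t, 0 ≤ t ∧ γ t ≠ γ 0) ∧
        LAS (field p r b c M) (γ '' Ici 0) := by
  obtain ⟨R3, hR3, hS⟩ := exists_sys'
  have hW := contDiff_WW.continuous
  have hb : ∀ y : E3 → ℝ, Continuous y → (∀ (a : ℝ) (x : E3), y (a • x) = a * y x) →
      ∀ᶠ σ in 𝓝[>] (0 : ℝ), ∀ p ∈ K0, 0 < 1 + y (Us σ p) := by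
    intro y hy hl
    obtain ⟨C, -, hC⟩ := bdd_of_compact (isCompact_K1 1)
      (f := fun z : Z4 => y (z.2.1, z.2.2.1, z.1 ^ 2 * WW z)) (by fun_prop)
    filter_upwards [ev_small C (show (0 : ℝ) < 1 / 2 by norm_num), ev_small 1 one_pos,
      self_mem_nhdsWithin] with σ h1 h2 h0 p hp
    rw [mul_one] at h2
    have h0' : 0 < σ := h0
    have e : Us σ p = (σ ^ 2) • ((p.1, p.2.1, σ ^ 2 * WW (σ, p)) : E3) := by
      simp only [Us, Prod.smul_mk, smul_eq_mul]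
      congr 2
      ring
    have h3 := (abs_le.1 (hC (σ, p) ⟨⟨h0'.le, h2⟩, hp⟩)).1
    rw [e, hl]
    have h4 := mul_le_mul_of_nonneg_left h3 (sq_nonneg σ)
    have h5 := mul_le_mul_of_nonneg_left h1 h0'.le
    simp only at h4
    nlinarith
  have hde : 0 < de := by unfold de; norm_num
  have hnu : 0 < nu := by unfold nu; norm_num
  obtain ⟨σ, ⟨S, hF1, hF2, hF3⟩, hy1, hy2, hy3, hα1, hβ1, hσ1, hσ⟩ := (hS.and
    ((hb y1 (by unfold y1; fun_prop) fun a x => by simp [y1]; ring).and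
    ((hb y2 (by unfold y2; fun_prop) fun a x => by simp [y2]; ring).and
    ((hb y3 (by unfold y3; fun_prop) fun a x => by simp [y3]; ring).and
    ((ev_small de one_pos).and ((ev_small nu one_pos).and ((ev_small 1 one_pos).and
      self_mem_nhdsWithin))))))).exists
  rw [mul_one] at hσ1
  have hσ0 : 0 < σ := hσ
  have hpow : ∀ (n : ℕ) (a : ℝ), 0 < a → σ * a ≤ 1 → σ ^ (n + 1) * a ≤ 1 := fun n a ha h => by
    rw [pow_succ, mul_assoc]
    exact mul_le_one₀ (pow_le_one₀ hσ0.le hσ1) (by positivity) h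
  set α := σ ^ 8 * de with hα
  set β := σ ^ 4 * nu with hβ
  have hα0 : 0 < α := by positivity
  have hβ0 : 0 < β := by positivity
  have hα1' : α ≤ 1 := hpow 7 de hde hα1
  have hβ1' : β ≤ 1 := hpow 3 nu hnu hβ1
  have hadm := admissible hα0.le hα1' hβ0.le hβ1'
  have hex := exists_global (r := rr α β) hadm.2.2.1 hadm.2.2.2.1 hadm.2.2.2.2.1
    (fun j => by
      rw [← hadm.2.2.2.2.2.2 j]
      exact Finset.sum_congr rfl fun i _ => MM_symm.apply j i)
  obtain ⟨γ, T, hγ, hT, hper, ⟨t₀, ht₀, hne⟩, hγ0, hlas⟩ := S.cycle (f := ff α β)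
    (Φ := fun p => PI (Us σ p)) (Ψ := fun u => Sc σ (PL u))
    (continuous_PI.comp (continuous_Us σ)) ((continuous_Sc σ).comp continuous_PL)
    (fun p => by simp only [PL_PI, Sc_Us hσ0.ne']) (fun u => by simp only [Us_Sc hσ0.ne', PI_PL])
    (fun p hp i => by
      fin_cases i
      · exact hy1 p hp
      · exact mul_pos w2_pos (hy2 p hp)
      · exact mul_pos w3_pos (hy3 p hp))
    (fun u hu t ht => by
      simp only [hF1, hF2, hF3]
      exact Sc_deriv hσ0.ne' hR3 (PL_deriv (hu t ht).2))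
    hex
  obtain ⟨m, κ, ρ, hm, hκ, hρ, hlow, hdec⟩ := QQ_est (K := β ^ 2 / α) hα0 hα1' hβ0.le hβ1'
    (by positivity) (div_mul_cancel₀ _ hα0.ne')
  have hsb : sb α β ≠ 0 := by
    have : 0 < sb α β := by unfold sb ct1 ct2 ct3; linarith
    exact this.ne'
  refine ⟨1, rr α β, bb, cc α β, MM, hadm, MM_symm, hex, PI 0, fun i => ?_, ff_zero α β,
    fun v hv h => ff_unique hsb hv h,
    eq_las (f := ff α β) continuous_PI continuous_PL (PL_PI 0) PI_PL
      (Q := QQ α (β ^ 2 / α)) (by unfold QQ; fun_prop) (by simp [QQ]) hm hκ hρ hlow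
      (fun u hu t ht => QQ_deriv α β _ (PL_deriv (hu t ht).2)) hdec,
    fun hG => ?_, γ, T, hγ, hT, hper, ⟨t₀, ht₀, hne⟩, hlas⟩
  · fin_cases i
    · simp [PI, y1]
    · simpa [PI, y2] using w2_pos
    · simpa [PI, y3] using w3_pos
  · have h1 := hG.2 γ hγ hγ0
    have h2 : ∀ t, 0 ≤ t → γ t = PI 0 := fun t ht => by
      have h3 : Tendsto (fun n : ℕ => t + n * T) atTop atTop :=
        tendsto_atTop_add_const_left _ _ (tendsto_natCast_atTop_atTop.atTop_mul_const hT)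
      have h4 := h1.comp h3
      have h5 : (γ ∘ fun n : ℕ => t + n * T) = fun _ => γ t :=
        funext fun n => per_nat hT.le hper n t ht
      rw [h5] at h4
      exact tendsto_nhds_unique tendsto_const_nhds h4
    exact hne ((h2 t₀ ht₀).trans (h2 0 le_rfl).symm)

end Pool.Agent.Results.MP_51358b_an.Bistable
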